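import Mathlib
import Pool.Agent.Lib.helper28.MatrixTree

namespace Pool.Agent.H.MP_15f3fd_al

open Matrix Finset Pool.Agent.Lib.helper28.MatrixTree

theorem andreief {m N : Type} [Fintype m] [DecidableEq m] [Fintype N] (A : Matrix m N ℝ) :
    ((Fintype.card m).factorial : ℝ) * (A * Aᵀ).det =
      ∑ f : m → N, (A.submatrix id f).det ^ 2 := by
  classical
  have h1 : (A * Aᵀ).det = ∑ f : m → N, (∏ i, A i (f i)) * (A.submatrix id f).det := by
    have : (A * Aᵀ).det = detRowAlternating (fun i => ∑ k, A i k • Aᵀ k) := by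
      congr 1
      ext i j
      simp [mul_apply]
    rw [this]
    erw [MultilinearMap.map_sum]
    refine Finset.sum_congr rfl fun f _ => ?_
    erw [MultilinearMap.map_smul_univ]
    rw [smul_eq_mul, ← det_transpose]
    rfl
  have h2 : ∀ σ : Equiv.Perm m, (A * Aᵀ).det = ∑ f : m → N,
      ((Equiv.Perm.sign σ : ℤ) : ℝ) * (∏ i, A i (f (σ i))) * (A.submatrix id f).det := by
    intro σ
    rw [h1, ← Equiv.sum_comp (Equiv.arrowCongr σ.symm (Equiv.refl N))]
    refine Finset.sum_congr rfl fun f _ => ?_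
    have : A.submatrix id ((Equiv.arrowCongr σ.symm (Equiv.refl N)) f) =
        (A.submatrix id f).submatrix id σ := rfl
    rw [this, det_permute']
    simp only [Equiv.arrowCongr_apply, Equiv.symm_symm, Equiv.coe_refl, Function.comp, id]
    ring
  rw [← Fintype.card_perm, ← nsmul_eq_mul, ← Finset.card_univ, ← Finset.sum_const,
    Finset.sum_congr rfl fun σ _ => h2 σ, Finset.sum_comm]
  refine Finset.sum_congr rfl fun f _ => ?_
  rw [← Finset.sum_mul, sq]
  congr 1
  rw [← det_transpose, det_apply']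
  rfl

section
variable {R : Type} [CommRing R] {V : Type} [DecidableEq V]

def e (i j a b : V) : R := (if a = i ∧ b = j then 1 else 0) - (if b = i ∧ a = j then 1 else 0)

def At (x : V → R) (i j : V) (t : V × V × V) : R :=
  x t.2.2 * e i j t.1 t.2.1 - x t.2.1 * e i j t.1 t.2.2 + x t.1 * e i j t.2.1 t.2.2

theorem e_swap (i j a b : V) : (e i j b a : R) = - e i j a b := by simp [e]

theorem e_scale (x : V → R) (i j a b : V) : x i * x j * e i j a b = x a * x b * e i j a b := by
  unfold e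
  by_cases h1 : a = i ∧ b = j
  · rw [h1.1, h1.2]
  · by_cases h2 : b = i ∧ a = j
    · rw [h2.1, h2.2, mul_comm (x j)]
    · simp [h1, h2]

theorem At_scale (x : V → R) (i j : V) (t : V × V × V) :
    x i * x j * At x i j t = x t.1 * x t.2.1 * x t.2.2 * ((At (fun _ => (1 : ℤ)) i j t : ℤ) : R) := by
  have : ∀ a b, ((e i j a b : ℤ) : R) = e i j a b := fun a b => by simp [e]
  simp only [At]
  push_cast
  simp only [this]
  linear_combination x t.2.2 * e_scale x i j t.1 t.2.1 - x t.2.1 * e_scale x i j t.1 t.2.2 +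
    x t.1 * e_scale x i j t.2.1 t.2.2

theorem det_scale {m : Type} [Fintype m] [DecidableEq m] (x : V → R) (p q : m → V)
    (f : m → V × V × V) :
    (∏ r, x (p r) * x (q r)) * (of fun r c => At x (p r) (q r) (f c)).det =
      (∏ c, x (f c).1 * x (f c).2.1 * x (f c).2.2) *
        (((of fun r c => At (fun _ => (1 : ℤ)) (p r) (q r) (f c)).det : ℤ) : R) := by
  rw [← det_mul_column, Int.cast_det, ← det_mul_row]
  congr 1
  ext r c
  exact At_scale x _ _ _

theorem At_sort [LinearOrder V] (x : V → R) (t0 : {t : V × V × V // t.1 < t.2.1 ∧ t.2.1 < t.2.2})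
    (t : V × V × V) : ∃ (s : {t : V × V × V // t.1 < t.2.1 ∧ t.2.1 < t.2.2}) (c : R),
      ∀ i j, At x i j t = c * At x i j s.1 := by
  obtain ⟨a, b, c⟩ := t
  have e0 : ∀ i j a : V, (e i j a a : R) = 0 := fun i j a => by simp [e]
  rcases lt_trichotomy a b with h1 | rfl | h1
  · rcases lt_trichotomy b c with h2 | rfl | h2
    · exact ⟨⟨(a, b, c), h1, h2⟩, 1, fun i j => by simp⟩
    · exact ⟨t0, 0, fun i j => by simp [At, e0]⟩
    · rcases lt_trichotomy a c with h3 | rfl | h3
      · exact ⟨⟨(a, c, b), h3, h2⟩, -1, fun i j => by simp only [At, e_swap i j c b]; ring⟩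
      · exact ⟨t0, 0, fun i j => by simp only [At, e0, e_swap i j a b]; ring⟩
      · exact ⟨⟨(c, a, b), h3, h1⟩, 1, fun i j => by
          simp only [At, e_swap i j c b, e_swap i j c a]; ring⟩
  · exact ⟨t0, 0, fun i j => by simp [At, e0]⟩
  · rcases lt_trichotomy a c with h2 | rfl | h2
    · exact ⟨⟨(b, a, c), h1, h2⟩, -1, fun i j => by simp only [At, e_swap i j b a]; ring⟩
    · exact ⟨t0, 0, fun i j => by simp only [At, e0, e_swap i j b a]; ring⟩
    · rcases lt_trichotomy b c with h3 | rfl | h3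
      · exact ⟨⟨(b, c, a), h3, h2⟩, 1, fun i j => by
          simp only [At, e_swap i j b a, e_swap i j c a]; ring⟩
      · exact ⟨t0, 0, fun i j => by simp [At, e0]⟩
      · exact ⟨⟨(c, b, a), h3, h1⟩, -1, fun i j => by
          simp only [At, e_swap i j b a, e_swap i j c a, e_swap i j c b]; ring⟩

theorem gram [Fintype V] (x : V → R) (F G : V → V → R) (hF : ∀ a b, F b a = -F a b)
    (hG : ∀ a b, G b a = -G a b) :
    ∑ t : V × V × V, (x t.2.2 * F t.1 t.2.1 - x t.2.1 * F t.1 t.2.2 + x t.1 * F t.2.1 t.2.2) *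
      (x t.2.2 * G t.1 t.2.1 - x t.2.1 * G t.1 t.2.2 + x t.1 * G t.2.1 t.2.2) =
      3 * (∑ c, x c ^ 2) * (∑ a, ∑ b, F a b * G a b) -
        6 * ∑ a, (∑ b, F a b * x b) * (∑ c, G a c * x c) := by
  have P : ∀ H : V → V → V → R, ∑ t : V × V × V, H t.1 t.2.1 t.2.2 = ∑ a, ∑ b, ∑ c, H a b c :=
    fun H => by simp only [Fintype.sum_prod_type]
  let s1 : V × V × V ≃ V × V × V := ⟨fun t => (t.1, t.2.2, t.2.1), fun t => (t.1, t.2.2, t.2.1),
    fun _ => rfl, fun _ => rfl⟩
  let s2 : V × V × V ≃ V × V × V := ⟨fun t => (t.2.1, t.2.2, t.1), fun t => (t.2.2, t.1, t.2.1),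
    fun _ => rfl, fun _ => rfl⟩
  let U : V × V × V → R := fun t => x t.2.2 ^ 2 * (F t.1 t.2.1 * G t.1 t.2.1)
  let W : V × V × V → R := fun t => F t.1 t.2.1 * x t.2.1 * (G t.1 t.2.2 * x t.2.2)
  have hU : ∑ t, U t = (∑ c, x c ^ 2) * (∑ a, ∑ b, F a b * G a b) := by
    rw [P fun a b c => x c ^ 2 * (F a b * G a b)]
    simp only [← Finset.sum_mul, ← Finset.mul_sum]
  have hW : ∑ t, W t = ∑ a, (∑ b, F a b * x b) * (∑ c, G a c * x c) := by
    rw [P fun a b c => F a b * x b * (G a c * x c)]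
    simp only [← Finset.sum_mul, ← Finset.mul_sum]
  have h : ∀ t : V × V × V,
      (x t.2.2 * F t.1 t.2.1 - x t.2.1 * F t.1 t.2.2 + x t.1 * F t.2.1 t.2.2) *
      (x t.2.2 * G t.1 t.2.1 - x t.2.1 * G t.1 t.2.2 + x t.1 * G t.2.1 t.2.2) =
      U t + U (s1 t) + U (s2 t) - (W t + W (s1 t) + W (s2 t) + W (s1 (s2 t)) + W (s2 (s2 t)) +
        W (s1 (s2 (s2 t)))) := by
    rintro ⟨a, b, c⟩
    simp only [U, W, s1, s2, Equiv.coe_fn_mk, hF a b, hF a c, hF b c, hG a b, hG a c, hG b c]
    ring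
  simp only [h, Finset.sum_sub_distrib, Finset.sum_add_distrib]
  rw [s1.sum_comp U, s2.sum_comp U, s1.sum_comp W, s2.sum_comp W, s2.sum_comp fun t => W (s1 t),
    s2.sum_comp fun t => W (s2 t), s2.sum_comp fun t => W (s1 (s2 t)),
    s2.sum_comp fun t => W (s1 t), s1.sum_comp W, s2.sum_comp W, hU, hW]
  ring

end

theorem det_lap {V : Type} [Fintype V] [DecidableEq V] (r : V) (w : Sym2 V → ℝ)
    (hw : ∀ e : Sym2 V, e.IsDiag → w e = 0) (y : V → ℝ) :
    (lap w + vecMulVec y y).det = (∑ v, y v) ^ 2 * tau w := by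
  let u : V → ℝ := Pi.single r 1
  let E : Matrix V V ℝ := 1 + replicateCol Unit (y - u) * replicateRow Unit (fun _ : V => (1 : ℝ))
  have hE : E.det = ∑ v, y v := by
    rw [det_one_add_replicateCol_mul_replicateRow]
    simp [dotProduct, u, Pi.single_apply]
  have hE' : ∀ a b, E a b = (if a = b then 1 else 0) + (y a - u a) := fun a b => by
    simp [E, one_apply, mul_apply]
  have h1 : E * lap w = lap w := by
    ext a b
    simp only [mul_apply, hE', add_mul, Finset.sum_add_distrib, ← Finset.mul_sum, lap_symm w _ b,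
      lap_row]
    simp [lap_symm w a b]
  have h2 : lap w * Eᵀ = lap w := by
    ext a b
    simp only [mul_apply, transpose_apply, hE', mul_add, Finset.sum_add_distrib, ← Finset.sum_mul,
      lap_row]
    simp
  have h3 : E *ᵥ u = y := by
    ext a
    simp [u, hE', Pi.single_apply]
  have h4 : E * (lap w + vecMulVec u u) * Eᵀ = lap w + vecMulVec y y := by
    rw [Matrix.mul_add, Matrix.add_mul, h1, h2, mul_vecMulVec, vecMulVec_mul, vecMul_transpose, h3]
  have h5 : lap w + vecMulVec u u = (lap w).updateRow r (lap w r + u) := by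
    ext a b
    by_cases h : a = r
    · subst h; simp [u, vecMulVec_apply]
    · simp [u, vecMulVec_apply, h]
  have h6 : (lap w).det = 0 := by
    rw [← exists_mulVec_eq_zero_iff]
    exact ⟨fun _ => 1, fun h => by simpa using congrFun h r, by
      ext a; simp [mulVec, dotProduct, lap_row]⟩
  rw [← h4, det_mul, det_mul, det_transpose, hE, h5, det_updateRow_add, updateRow_eq_self, h6,
    matrix_tree w hw r]
  ring

end Pool.Agent.H.MP_15f3fd_al
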